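import Pool.Agent.Helper3.NFR.Stmts
import Pool.Agent.Helper50.BL.Defs

/-!
# Full Beck-Fiala from the sensitive signing theorem: definitions

The blueprint is `bf_helper49.md`.
-/

namespace Pool.Agent.Helper49.BFX

open Finset
open scoped Classical
open Pool.Agent.Helper38.ZS (IsPr ap l1 TT nu DD Link fd lc)
open Pool.Agent.Helper3.NFR (fn ph ps wt ZZ Happy sw EE c0)

noncomputable section

/-- a test function: identity or absolute value -/
def tst (o : Bool) (x : ℝ) : ℝ := if o then |x| else x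

/-- the row coordinates `M`: for each `k ∈ M` a vector of the range of `P` which is one at `k`,
zero at the other rows and has energy at most `θ k ^ 200` elsewhere -/
structure Rows {ι : Type} [Fintype ι] (P : ι → ι → ℝ) (M : Finset ι) (θ : ι → ℝ)
    (vk : ι → ι → ℝ) : Prop where
  pos : ∀ k ∈ M, 0 < θ k
  le : ∀ k ∈ M, θ k ≤ 1
  inr : ∀ k ∈ M, ap P (vk k) = vk k
  one : ∀ k ∈ M, vk k k = 1
  off : ∀ k ∈ M, ∀ l ∈ M, l ≠ k → vk k l = 0
  en : ∀ k ∈ M, ∑ l ∈ univ.filter (fun l => l ∉ M), (vk k l) ^ 2 ≤ θ k ^ 200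

variable {V R : Type} [Fintype V] [Fintype R]

/-- reserve at level `j` -/
def Tj (k : V → ℕ) (j : ℕ) : Finset V := Pool.Agent.Helper3.NFR.TT k j

/-- elements of a finite set in the row `S` -/
def row (a : V → Finset R) (X : Finset V) (S : R) : Finset V := X.filter (fun v => S ∈ a v)

/-- the size of a row at level `j` -/
def sig (a : V → Finset R) (k : V → ℕ) (j : ℕ) (S : R) : ℝ :=
  ∑ v ∈ row a (Tj k j) S, 2 ^ (k v - j - 1)

/-- inverse tolerance of a row -/
def lamx (a : V → Finset R) (l0 D : ℝ) (k : V → ℕ) (j : ℕ) (S : R) : ℝ :=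
  l0 / Real.sqrt (1 + sig a k j S / D)

end

end Pool.Agent.Helper49.BFX
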