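import Pool.Agent.Helper49.BFX.Defs

/-!
# Full Beck-Fiala: statements of the modules (blueprint `bf_helper49.md`)
-/

namespace Pool.Agent.Helper49.BFX

open Finset
open scoped Classical
open Pool.Agent.Helper38.ZS (IsPr ap l1 TT nu DD Link fd lc IsZ)
open Pool.Agent.Helper3.NFR (fn ph ps wt ZZ Happy sw EE c0)
open Pool.Agent.Helper50.BL (IsW)

noncomputable section

/-- 1. level selection with weights -/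
def ST_LEVELW : Prop :=
  ∃ C0 : ℝ, 1 ≤ C0 ∧ ∀ (ι : Type) [Fintype ι] (V W : Finset ι) (f ξ w : ι → ℝ) (β : ℝ),
    0 < β → β ≤ 1 → (∀ i, 0 ≤ w i) → (∀ i ∈ V, |ξ i| ≤ 1) →
    β * l1 f V + ∑ i ∈ W, w i * |f i| < ∑ i ∈ V, ξ i * f i →
    ∃ s : ℝ, 0 < s ∧ 0 < ∑ i ∈ V, |TT (s * f i)| ∧
      β / 2 * ∑ i ∈ V, |TT (s * f i)| < ∑ i ∈ V, ξ i * TT (s * f i) ∧
      ∀ h : ℤ, (2 : ℝ) ^ h * (β * (#(V.filter (fun i => (2 : ℝ) ^ (h + 1) ≤ |s * f i|)) : ℝ)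
          + ∑ i ∈ W.filter (fun i => (2 : ℝ) ^ (h + 1) ≤ |s * f i|), w i)
        ≤ C0 * (2 : ℝ) ^ (|(h : ℝ)| / 40) * ∑ i ∈ V, |TT (s * f i)|

/-- 2. weighted sums over a profile -/
def ST_WSUM : Prop :=
  ∃ C0 : ℝ, 1 ≤ C0 ∧ ∀ (ι : Type) [Fintype ι] (X : Finset ι) (g w : ι → ℝ) (A : ℝ),
    0 ≤ A → (∀ i, 0 ≤ w i) →
    (∀ h : ℤ, (2 : ℝ) ^ h * ∑ i ∈ X.filter (fun i => (2 : ℝ) ^ (h + 1) ≤ |g i|), w i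
      ≤ A * (2 : ℝ) ^ (|(h : ℝ)| / 40)) →
    ∑ i ∈ X, w i * min (|g i| ^ (31 / 30 : ℝ)) (|g i| ^ (29 / 30 : ℝ)) ≤ C0 * A

/-- 3. rounding the row coordinates -/
def ST_ROUND : Prop :=
  ∃ C0 : ℝ, 1 ≤ C0 ∧ ∀ (ι : Type) [Fintype ι] (P : ι → ι → ℝ) (M : Finset ι) (θ : ι → ℝ)
    (vk : ι → ι → ℝ) (g : ι → ℝ) (A γ : ℝ),
    Rows P M θ vk → ap P g = g → 0 ≤ A → 0 < γ → γ ≤ 1 →
    ∑ k ∈ M, θ k * min (|g k| ^ (31 / 30 : ℝ)) (|g k| ^ (29 / 30 : ℝ)) ≤ A →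
    ∃ (g' : ι → ℝ) (H : Finset ι), ap P g' = g' ∧ H ⊆ M ∧ (∀ k ∈ H, 1 ≤ |g' k|) ∧
      nu g' H ≤ C0 / γ * A ∧ ∑ k ∈ M \ H, g' k ^ 2 ≤ C0 * Real.sqrt γ * A ∧
      ∑ i ∈ univ.filter (fun i => i ∉ M), (g' i - g i) ^ 2 ≤ C0 / γ * A

/-- 4. a bad vector has a bad piece, sensitive form -/
def ST_PIECEK : Prop :=
  ∀ β : ℝ, 0 < β → β ≤ 1 → ∃ C1 : ℝ, 1 ≤ C1 ∧ ∀ ε : ℝ, 0 < ε → ε ≤ 1 →
    ∃ γ κ C L0 : ℝ, 0 < γ ∧ γ ≤ 1 ∧ 0 < κ ∧ κ ≤ 1 ∧ 1 ≤ C ∧ 1 ≤ L0 ∧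
    ∀ (L : ℝ) (ι : Type) [Fintype ι] (P : ι → ι → ℝ) (V M : Finset ι) (θ : ι → ℝ)
      (vk : ι → ι → ℝ) (f ξ : ι → ℝ) (o : Bool),
      L0 ≤ L → IsPr P → Disjoint V M → Rows P M θ vk → ap P f = f → (∀ i ∈ V, |ξ i| ≤ 1) →
      β * l1 f V + L * (l1 f (univ.filter (fun i => i ∉ V ∧ i ∉ M)) + ∑ k ∈ M, θ k * |f k|)
        < ∑ i ∈ V, ξ i * tst o (f i) →
      ∃ (g : ι → ℝ) (Z : Finset ι) (m : ℝ), m = ∑ i ∈ Z ∩ V, |TT (g i)| ∧ 0 < m ∧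
        β / 4 * m < ∑ i ∈ Z ∩ V, ξ i * tst o (TT (g i)) ∧ (∀ i ∈ Z, γ ≤ |g i|) ∧
        Link P κ Z g ∧ nu g Z ≤ C * m ∧ nu g (Z \ V) ≤ C / L * m ∧ DD P g Z ≤ ε * m ∧
        (#((Z ∩ V).filter (fun i => 1 / 2 ≤ |g i|)) : ℝ) ≤ C1 * m

/-- 5. reconstruction from a sample, with the distance of the truncations -/
def ST_REC2 : Prop :=
  ∀ β C1 : ℝ, 0 < β → β ≤ 1 → 1 ≤ C1 → ∃ ε : ℝ, 0 < ε ∧ ε ≤ 1 / 16 ∧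
    ∀ γ C : ℝ, 0 < γ → γ ≤ 1 → 1 ≤ C → ∃ K0 : ℝ, ∀ K : ℝ, K0 ≤ K →
    ∃ η L : ℝ, 0 < η ∧ 1 ≤ L ∧
    ∀ (ι : Type) [Fintype ι] (P : ι → ι → ℝ) (V Z : Finset ι) (g : ι → ℝ) (m : ℝ),
      IsPr P → (∀ i ∈ V, P i i ≤ η) →
      m = ∑ i ∈ Z ∩ V, |TT (g i)| → 0 < m → (∀ i ∈ Z, γ ≤ |g i|) →
      nu g Z ≤ C * m → nu g (Z \ V) ≤ C / L * m → DD P g Z ≤ ε * m →
      (#((Z ∩ V).filter (fun i => 1 / 2 ≤ |g i|)) : ℝ) ≤ C1 * m →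
      ∃ z : ι → ℤ, (∀ k, k ∉ Z → z k = 0) ∧ lc z ≤ m / (4 * K ^ 100) ∧
        (#(V.filter (fun v => 1 < |fd P K z v|)) : ℝ) ≤ 2 * C1 * m ∧
        ∑ v ∈ V, |TT (fd P K z v)| ≤ 2 * m ∧
        ∑ v ∈ V, |TT (fd P K z v) - (if v ∈ Z then TT (g v) else 0)| ≤ β / 8 * m

/-- 6. sensitive signing, three tests, any product law -/
def ST_SIGNK : Prop :=
  ∀ β : ℝ, 0 < β → β ≤ 1 → ∃ η L : ℝ, 0 < η ∧ 1 ≤ L ∧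
    ∀ (ι : Type) [Fintype ι] (P : ι → ι → ℝ) (V M : Finset ι) (θ : ι → ℝ) (vk : ι → ι → ℝ)
      (α : Type) [Fintype α] (mu : ι → α → ℝ) (φ : Fin 3 → ι → α → ℝ) (o : Fin 3 → Bool),
      IsPr P → (∀ i ∈ V, P i i ≤ η) → Disjoint V M → Rows P M θ vk → IsW mu →
      (∀ j i x, |φ j i x| ≤ 1) → (∀ j i, ∑ x, mu i x * φ j i x = 0) →
      ∃ w : ι → α, ∀ (j : Fin 3) (f : ι → ℝ), ap P f = f →
        ∑ i ∈ V, φ j i (w i) * tst (o j) (f i) ≤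
          β * l1 f V + L * (l1 f (univ.filter (fun i => i ∉ V ∧ i ∉ M)) + ∑ k ∈ M, θ k * |f k|)

/-- 7. the same for functionals of rows -/
def ST_SIGNKF : Prop :=
  ∀ β : ℝ, 0 < β → β ≤ 1 → ∃ η L : ℝ, 0 < η ∧ 1 ≤ L ∧
    ∀ (V R : Type) [Fintype V] [Fintype R] (a : V → Finset R) (lam θ : R → ℝ) (q : V → ℝ)
      (T N : Finset V) (α : Type) [Fintype α] (mu : V → α → ℝ) (φ : Fin 3 → V → α → ℝ)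
      (o : Fin 3 → Bool),
      Disjoint T N → (∀ S, 0 < lam S) → (∀ v, 0 ≤ q v) → (∀ S, 0 < θ S) → (∀ S, θ S ≤ 1) →
      (∀ S, θ S < 1 → (#(row a N S) : ℝ) + ∑ v ∈ row a T S, q v ^ 2 ≤ θ S ^ 200 * lam S ^ 2) →
      (∀ u ∈ N, ∀ y : R → ℝ, (fn a u y) ^ 2 ≤
        η * (∑ S, (lam S * y S) ^ 2 + ∑ v ∈ T, (q v * fn a v y) ^ 2)) →
      IsW mu → (∀ j i x, |φ j i x| ≤ 1) → (∀ j i, ∑ x, mu i x * φ j i x = 0) →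
      ∃ w : V → α, ∀ (j : Fin 3) (y : R → ℝ), ∑ u ∈ N, φ j u (w u) * tst (o j) (fn a u y) ≤
        β * ∑ u ∈ N, |fn a u y| + L * (∑ S, θ S * lam S * |y S| + ∑ v ∈ T, q v * |fn a v y|)

/-- 8. the rank function: every element which is not in the reserve is happy -/
def ST_RANKX : Prop :=
  ∀ b : ℝ, 0 < b → b ≤ 1 → ∃ C : ℝ, 1 ≤ C ∧ ∀ (V R : Type) [Fintype V] [Fintype R]
    (a : V → Finset R) (t : ℕ), 1 ≤ t → (∀ v, (a v).card ≤ t) →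
    ∃ (N : ℕ) (k : V → ℕ), (∀ v, k v < N) ∧ ∀ j < N, ∀ u, k u ≤ j →
      Happy a b c0 (1 / 100) (lamx a (C * Real.sqrt t) (C * t) k j) (sw k j) (Tj k j) (EE k j) u

/-- 9. leverage for every happy element -/
def ST_LEVX : Prop :=
  ∀ (V R : Type) [Fintype V] [Fintype R] (a : V → Finset R) (b c : ℝ) (lam : R → ℝ) (s : V → ℝ)
    (T E : Finset V), 0 < b → 0 ≤ c → (∀ S, 0 < lam S) →
    (∀ u ∈ E, Happy a b c (1 / 100) lam s T E u) →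
    ∀ u, Happy a b c (1 / 100) lam s T E u → ∀ y : R → ℝ, (fn a u y) ^ 2 ≤
      2 * ∑ S, (lam S * y S) ^ 2 + b * ∑ v ∈ T, (s v * fn a v y) ^ 2

/-- 10. row counts from domination -/
def ST_CNT : Prop :=
  ∀ (V R : Type) [Fintype V] [Fintype R] (a : V → Finset R) (b : ℝ) (lam : R → ℝ) (s : V → ℝ)
    (T E : Finset V), 0 < b → (∀ S, 0 < lam S) → (∀ v, 0 ≤ s v) →
    (∀ u ∈ E, Happy a b c0 (1 / 100) lam s T E u) →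
    ∀ S, (#(row a E S) : ℝ) ≤ 8 / (b * c0) * lam S + 2 / c0 * ∑ v ∈ row a T S, s v

/-- 11. one level -/
def ST_STEPX : Prop :=
  ∀ ρ : ℝ, 0 < ρ → ρ ≤ 1 / 4 → ∃ b C : ℝ, 0 < b ∧ b ≤ 1 ∧ 1 ≤ C ∧
    ∀ (V R : Type) [Fintype V] [Fintype R] (a : V → Finset R) (lam θ : R → ℝ) (s : V → ℝ)
      (T E N : Finset V), Disjoint T N → (∀ S, 0 < lam S) → (∀ v, 0 ≤ s v) → (∀ v, s v ≤ 1) →
      (∀ u ∈ E, Happy a b c0 (1 / 100) lam s T E u) →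
      (∀ u ∈ N, Happy a b c0 (1 / 100) lam s T E u) →
      (∀ S, 0 < θ S) → (∀ S, θ S ≤ 1) →
      (∀ S, θ S < 1 → (#(row a N S) : ℝ) + (#(row a T S) : ℝ) ≤ θ S ^ 200 * lam S ^ 2) →
      ∀ z : V → ℝ, (∀ v, |z v| ≤ 1 / 2) → ∃ (F : Finset V) (x ζ : V → ℝ), F ⊆ N ∧
        (∀ v, x v = 1 ∨ x v = -1) ∧ (∀ v ∈ F, |ζ v| ≤ 1 / 8) ∧ (∀ v ∈ T, |ζ v| ≤ s v / 16) ∧
        (∀ S, |∑ u ∈ row a (N \ F) S, x u + ∑ u ∈ row a F S, ζ u - ∑ u ∈ row a N S, z u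
          + ∑ v ∈ row a T S, ζ v| ≤ C * (θ S * lam S)) ∧
        (∀ S, (#(row a F S) : ℝ) ≤ 2 * ρ * #(row a N S) + 1 / 8 * ∑ v ∈ row a T S, s v + C * lam S)

/-- 12. row error: a geometric sum in both directions -/
def ST_GEO : Prop :=
  ∃ C : ℝ, ∀ (n : ℕ) (σ : ℕ → ℝ) (t : ℝ), 0 < t → (∀ j < n, 0 < σ j) →
    (∀ j, j + 1 < n → 2 * σ (j + 1) ≤ σ j) →
    ∑ j ∈ range n, min ((σ j / t) ^ (1 / 200 : ℝ)) (1 / Real.sqrt (σ j / t)) ≤ C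

/-- 13. Beck-Fiala -/
def ST_BF : Prop :=
  ∃ C : ℝ, 0 < C ∧ ∀ (V R : Type) [Fintype V] [Fintype R] (a : V → Finset R) (t : ℕ), 1 ≤ t →
    (∀ v, (a v).card ≤ t) → ∃ x : V → ℝ, (∀ v, x v = 1 ∨ x v = -1) ∧
      ∀ S, |∑ v ∈ Finset.univ.filter (fun v => S ∈ a v), x v| ≤ C * Real.sqrt t

end

end Pool.Agent.Helper49.BFX
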